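import Mathlib
import Pool.Agent.H32.Tri6

namespace Pool.Agent.Results.MP_3093d2_nt.Counter

open Pool.Agent.H32.Sieve Pool.Agent.H32.Tri

/-- the `n`-th prime, `p 1 = 2` -/
noncomputable def p (n : ℕ) : ℕ := Nat.nth Nat.Prime (n - 1)

/-- triangular numbers `m(m+1)/2`, `m ≥ 0` -/
def Triangular (t : ℕ) : Prop := ∃ m : ℕ, t = m * (m + 1) / 2

theorem nt_spec {c : ℕ} (h : nt c = true) : ¬ Triangular c := by
  rintro ⟨m, hm⟩
  simp only [nt, force_eq, Bool.and_eq_true, decide_eq_true_iff] at h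
  obtain ⟨h1, h2⟩ := h
  have h3 : 2 ∣ m * (m + 1) := (Nat.even_mul_succ_self m).two_dvd
  have h4 : 8 * c + 1 = (2 * m + 1) * (2 * m + 1) := by
    obtain ⟨q, hq⟩ := h3
    have : c = q := by rw [hm, hq]; omega
    nlinarith
  rw [h4] at h1 h2
  have a := Nat.mul_self_lt_mul_self_iff.1 h1
  have b := Nat.mul_self_lt_mul_self_iff.1 h2
  omega

theorem small : blk (12301 + 1) (sieve 12301 110) 0 = 1471 := by decide +kernel

theorem result : ¬ ∀ n : ℕ, 9 < n → ∃ k : ℕ, 0 < k ∧ (k : ℝ) < (p n : ℝ) / 2 ∧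
    Triangular (Nat.primeCounting (k * n)) := by
  intro H
  obtain ⟨k, h0, h1, h2⟩ := H 1471 (by norm_num)
  have hc : Nat.count Nat.Prime (12301 + 1) = 1471 := by
    rw [count_eq (B := 110) (by norm_num)]; exact small
  have hp : p 1471 < 12301 + 1 := Nat.nth_lt_of_lt_count (by rw [hc]; norm_num)
  have hk : k ≤ 6150 := by
    have : (p 1471 : ℝ) < 12302 := by exact_mod_cast hp
    have : (k : ℝ) < 6151 := by linarith
    have : k < 6151 := by exact_mod_cast this
    omega
  have := u20.1 k h0 hk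
  apply nt_spec this
  rw [add_comm]
  exact h2

end Pool.Agent.Results.MP_3093d2_nt.Counter
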